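import Pool.Agent.Helper74.WB.St

/-! Project WB, module CAN: cancellation of a supply and a demand. -/

set_option autoImplicit false

namespace Pool.Agent.Helper16.WB

open Pool.Agent.Helper74 Pool.Agent.Helper74.WB

theorem hCAN (hGRE : StGRE) (hDEM : StDEM) : StCAN := by
  intro Λ i u v hu hv
  have hq : QW (u ++ ((i, false), false) :: v) := by
    intro a ha
    rw [List.mem_append, List.mem_cons] at ha
    rcases ha with ha | ha | ha
    · exact hu a ha
    · rw [ha]
    · exact hv a ha
  constructor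
  · intro h
    rw [hGRE, gr_append] at h
    obtain ⟨ρ, h1, h2⟩ := h
    have hρ : Red ρ := red_gr u [] ρ red_nil h1
    rw [gr_opt] at h2
    rcases h2 with h2 | h2
    · rw [gr_mand] at h2
      have h3 : ap (i, false) (ap (i, true) ρ) = ρ := ap_iv_ap (i, true) ρ hρ
      rw [h3] at h2
      rw [hGRE, gr_append]
      exact ⟨ρ, h1, h2⟩
    · apply hDEM Λ i u v hq
      rw [hGRE, gr_append]
      exact ⟨ρ, h1, h2⟩
  · intro h
    rw [hGRE, gr_append] at h
    obtain ⟨ρ, h1, h2⟩ := h
    have hρ : Red ρ := red_gr u [] ρ red_nil h1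
    rw [gr_mand, gr_opt] at h2
    rcases h2 with h2 | h2
    · have h3 : ap (i, true) (ap (i, false) ρ) = ρ := ap_ap_iv (i, true) ρ hρ
      rw [h3] at h2
      rw [hGRE, gr_append]
      exact ⟨ρ, h1, h2⟩
    · apply hDEM Λ i u v hq
      rw [hGRE, gr_append]
      refine ⟨ρ, h1, ?_⟩
      rw [gr_mand]
      exact h2

end Pool.Agent.Helper16.WB
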